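import Mathlib

namespace Pool.Agent.Results.MP_42b70f_co.Q1

open Classical in
/-- `σ` is the partner map of a perfect matching of `G` that is sparsely joined: two distinct
matching edges `u (σ u)` and `x (σ x)` are joined by at most one edge of `G`. -/
def SparseMatching {V : Type} (G : SimpleGraph V) (σ : V → V) : Prop :=
  (∀ v, σ (σ v) = v) ∧ (∀ v, G.Adj v (σ v)) ∧
  ∀ u x, x ≠ u → x ≠ σ u →
    (if G.Adj u x then 1 else 0) + (if G.Adj u (σ x) then 1 else 0) +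
      (if G.Adj (σ u) x then 1 else 0) + (if G.Adj (σ u) (σ x) then 1 else 0) ≤ (1 : ℕ)

/-- `a b c d a` is a 4-cycle of `G`. -/
def FourCycle {V : Type} (G : SimpleGraph V) (a b c d : V) : Prop :=
  a ≠ c ∧ b ≠ d ∧ G.Adj a b ∧ G.Adj b c ∧ G.Adj c d ∧ G.Adj d a

/-- the 4-cycle is caught by `A`: an opposite pair lies inside `A` or inside its complement -/
def Caught {V : Type} (A : Finset V) (a b c d : V) : Prop :=
  (a ∈ A ∧ c ∈ A) ∨ (a ∉ A ∧ c ∉ A) ∨ (b ∈ A ∧ d ∈ A) ∨ (b ∉ A ∧ d ∉ A)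

def E : List (Fin 14 × Fin 14) := [(0, 1), (0, 3), (0, 6), (0, 13), (1, 4), (1, 8), (1, 10), (2, 3), (2, 6), (2, 11), (2, 12), (3, 5), (3, 8), (4, 5), (4, 7), (5, 9), (5, 10), (5, 13), (6, 7), (6, 10), (7, 8), (7, 13), (8, 9), (8, 12), (9, 11), (10, 11), (11, 13), (12, 13)]

def G : SimpleGraph (Fin 14) where
  Adj a b := (a, b) ∈ E ∨ (b, a) ∈ E
  symm := ⟨fun _ _ h => h.symm⟩
  loopless := ⟨by decide⟩

instance : DecidableRel G.Adj := fun a b => by unfold G; infer_instance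

def sig : Fin 14 → Fin 14 := ![1, 0, 3, 2, 5, 4, 7, 6, 9, 8, 11, 10, 13, 12]

def L : List (Fin 14 × Fin 14 × Fin 14 × Fin 14) := [(0, 3, 2, 6), (0, 3, 5, 13), (0, 6, 7, 13), (0, 1, 8, 3), (0, 1, 10, 6), (1, 4, 5, 10), (1, 4, 7, 8), (2, 3, 8, 12), (2, 6, 10, 11), (2, 11, 13, 12), (3, 5, 9, 8), (4, 5, 13, 7), (5, 9, 11, 10), (5, 9, 11, 13), (5, 10, 11, 13), (7, 8, 12, 13)]

lemma L_cyc : ∀ c ∈ L, FourCycle G c.1 c.2.1 c.2.2.1 c.2.2.2 := by
  have : (L.all fun c => decide (c.1 ≠ c.2.2.1 ∧ c.2.1 ≠ c.2.2.2 ∧ G.Adj c.1 c.2.1 ∧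
      G.Adj c.2.1 c.2.2.1 ∧ G.Adj c.2.2.1 c.2.2.2 ∧ G.Adj c.2.2.2 c.1)) = true := by
    decide +kernel
  intro c hc
  have h := List.all_eq_true.1 this c hc
  rw [decide_eq_true_iff] at h
  exact h

def chk (l : List Bool) : Bool :=
  l.count true != 7 || L.any fun c =>
    (l.getD c.1 false != l.getD c.2.2.1 false) && (l.getD c.2.1 false != l.getD c.2.2.2 false)

lemma key : ∀ a0 a1 a2 a3 a4 a5 a6 a7 a8 a9 a10 a11 a12 a13 : Bool, chk [a0, a1, a2, a3, a4, a5, a6, a7, a8, a9, a10, a11, a12, a13] = true := by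
  decide +kernel

lemma sparse : ∀ u x, x ≠ u → x ≠ sig u →
    (if G.Adj u x then 1 else 0) + (if G.Adj u (sig x) then 1 else 0) +
      (if G.Adj (sig u) x then 1 else 0) + (if G.Adj (sig u) (sig x) then 1 else 0) ≤ (1 : ℕ) := by
  decide +kernel

lemma notri : ∀ a b c, G.Adj a b → G.Adj a c → ¬ G.Adj b c := by decide +kernel

theorem result : ∃ (G : SimpleGraph (Fin 14)) (σ : Fin 14 → Fin 14),
    G.CliqueFree 3 ∧ SparseMatching G σ ∧
    ∀ A : Finset (Fin 14), A.card = 7 →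
      ∃ a b c d, FourCycle G a b c d ∧ ¬ Caught A a b c d := by
  refine ⟨G, sig, ?_, ⟨by decide +kernel, by decide +kernel, ?_⟩, ?_⟩
  · intro s hs
    obtain ⟨a, b, c, h1, h2, h3, -⟩ := SimpleGraph.is3Clique_iff.1 hs
    exact notri a b c h1 h2 h3
  · intro u x h1 h2
    have := sparse u x h1 h2
    by_cases a1 : G.Adj u x <;> by_cases a2 : G.Adj u (sig x) <;>
      by_cases a3 : G.Adj (sig u) x <;> by_cases a4 : G.Adj (sig u) (sig x) <;> simp_all
  · intro A hA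
    let f : Fin 14 → Bool := fun i => decide (i ∈ A)
    have hl : List.ofFn f = [f 0, f 1, f 2, f 3, f 4, f 5, f 6, f 7, f 8, f 9, f 10, f 11, f 12, f 13] := by
      simp [List.ofFn_succ]
    have hk := key (f 0) (f 1) (f 2) (f 3) (f 4) (f 5) (f 6) (f 7) (f 8) (f 9) (f 10) (f 11) (f 12) (f 13)
    rw [← hl] at hk
    have hc : (List.ofFn f).count true = 7 := by
      rw [List.ofFn_eq_map, List.count_eq_countP, List.countP_map, List.countP_eq_length_filter,
        ← hA, ← List.toFinset_card_of_nodup ((List.nodup_finRange 14).filter _)]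
      congr 1
      ext i
      simp [f]
    have hg : ∀ i : Fin 14, (List.ofFn f).getD i false = f i := by
      intro i; rw [List.getD_eq_getElem _ _ (by simp), List.getElem_ofFn]
    simp only [chk, hc, bne_self_eq_false, Bool.false_or, List.any_eq_true, hg] at hk
    obtain ⟨c, hcL, hc2⟩ := hk
    refine ⟨_, _, _, _, L_cyc c hcL, ?_⟩
    unfold Caught
    simp only [f, Bool.and_eq_true, bne_iff_ne, ne_eq, decide_eq_decide] at hc2
    tauto

end Pool.Agent.Results.MP_42b70f_co.Q1
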